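import Pool.Agent.Helper93.KP.All

/-!
# `k (n - k) - 1` a prime or a product of two primes with `k ≤ n ^ ε`, for almost all `n`

For fixed `k` the numbers `k (n - k) - 1`, `n ≤ N`, form an arithmetic progression. The variance over `n` of the sum over the
multiples `k ≤ N ^ κ₀` of `30` of the weights of the linear sieve (well factorable weights of level `N ^ 0.5499` times the weights of the
fundamental lemma) is small: this needs the level of distribution `N ^ 1.0998` for pairs of progressions, which is
proved by Weil's bound for Kloosterman sums. Richert's weights then give products of at most two primes.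
-/

namespace Pool.Agent.Results.MP_77e955_nt.AlmostAllP2

open Finset

open Classical in
/-- the integers `k`, `1 ≤ k ≤ n ^ ε` and `k ≤ n / 2`, for which `k (n - k) - 1` is a prime or a product of two primes -/
noncomputable def ks (ε : ℝ) (n : ℕ) : Finset ℕ :=
  (Icc 1 (n / 2)).filter (fun k => (k : ℝ) ≤ (n : ℝ) ^ ε ∧
    ((k * (n - k) - 1).Prime ∨ ∃ p q : ℕ, p.Prime ∧ q.Prime ∧ k * (n - k) - 1 = p * q))

/-- For every real `ε > 0` there are `κ > 0` and `N₀` such that for every `N ≥ N₀` all but at most `N ^ (1 - κ)` of the integers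
`1 ≤ n ≤ N` have at least `n ^ κ` elements in `ks ε n`. -/
theorem result : ∀ ε : ℝ, 0 < ε → ∃ κ : ℝ, 0 < κ ∧ ∃ N₀ : ℕ, ∀ N : ℕ, N₀ ≤ N →
    (((Icc 1 N).filter (fun n => ((ks ε n).card : ℝ) < (n : ℝ) ^ κ)).card : ℝ) ≤ (N : ℝ) ^ (1 - κ) :=
  Pool.Agent.Helper93.KP.pFinal

end Pool.Agent.Results.MP_77e955_nt.AlmostAllP2
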