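import Pool.Agent.Helper93.KS.All3

/-!
# `k (n - k) - 1` with at most three prime factors, with a bounded number of exceptional `n` in every interval `(N, 2 N]`

For a given `n` the multiples `k ≤ n / 2` of `30` have the level of distribution `n ^ (1 - ε)` for the values `k (n - k) - 1 < n ^ 2`. If the primes `p ≥ n ^ θ`
with two roots of `k (n - k) - 1` modulo `p` have relative density about `1 / 2` in all boxes, then the linear sieve (with weights depending only on the boxes)
and Richert's weights give at most three prime factors. Otherwise the real primitive character attached to `n ^ 2 - 4` has a large sum over the primes of a box.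
Different `n` in `(N, 2 N]` have different characters, and by the duality principle with the weights of an upper bound sieve only
boundedly many characters can have such large sums.
-/

namespace Pool.Agent.Results.MP_77e955_nt.BoundedExceptionsP3

open Finset

open Classical in
/-- the integers `1 ≤ k ≤ n / 2` for which `k (n - k) - 1` is larger than `1` and has at most three prime factors -/
noncomputable def ks (n : ℕ) : Finset ℕ :=
  (Icc 1 (n / 2)).filter (fun k => 2 ≤ k * (n - k) - 1 ∧ (k * (n - k) - 1).primeFactorsList.length ≤ 3)

open Classical in
/-- There are `c > 0`, `C` and `N₀` such that for every `N ≥ N₀` all but at most `C` of the integers `n ∈ (N, 2 N]` have at least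
`c n / (log n) ^ 3` elements in `ks n`. -/
theorem result : ∃ c : ℝ, 0 < c ∧ ∃ C N₀ : ℕ, ∀ N : ℕ, N₀ ≤ N →
    ((Ioc N (2 * N)).filter (fun n => ((ks n).card : ℝ) < c * n / Real.log n ^ 3)).card ≤ C :=
  Pool.Agent.Helper93.KS.pFin3

end Pool.Agent.Results.MP_77e955_nt.BoundedExceptionsP3
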