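import Pool.Agent.Helper30.LW.All

/-!
# For infinitely many `n` there is no `k ≤ c log n log log n` with `k (n - k) - 1` prime

`2 n ≡ 5` modulo all primes `5 ≤ l ≤ x / 2`, so `2 (k (n - k) - 1) ≡ - (2 k - 1)(k - 2)`; a sieve of dimension two bounds the number of
the surviving `k`, which are removed one by one by the primes `l ∈ (x / 2, x]`, not dividing `k`.
-/

namespace Pool.Agent.Results.MP_77e955_nt.LeastKLower

/-- There is `c > 0` such that for infinitely many `n` all `1 ≤ k ≤ c log n log log n` satisfy `k ≤ n / 2` and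
`k (n - k) - 1` is not prime. -/
theorem result : ∃ c : ℝ, 0 < c ∧ ∀ n₀ : ℕ, ∃ n : ℕ, n₀ ≤ n ∧ ∀ k : ℕ, 1 ≤ k →
    (k : ℝ) ≤ c * (Real.log n * Real.log (Real.log n)) → 2 * k ≤ n ∧ ¬ (k * (n - k) - 1).Prime :=
  Pool.Agent.Helper30.LW.pFNW

end Pool.Agent.Results.MP_77e955_nt.LeastKLower
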