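import Pool.Agent.Helper93.KN.All

/-!
# Primes `k (n - k) - 1` with small `k` for a positive proportion of the `n` in every arithmetic progression

First moment: the primes `p` with `p + 1 = k m`, `k ≡ 0` and `m ≡ a` modulo `q`, `k` in a dyadic block, counted by the
Bombieri-Vinogradov theorem; `n = k + m`. Second moment: an upper bound sieve for the `n` with `k (n - k) - 1` and
`k' (n - k') - 1` both prime, averaged over `k ≠ k'`. The Cauchy-Schwarz inequality gives the result, in the whole range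
`C log N ≤ K ≤ N ^ θ`.
-/

namespace Pool.Agent.Results.MP_77e955_nt.PositiveProportion

open Finset

/-- the integers `k`, `1 ≤ k ≤ K` and `k ≤ n / 2`, for which `k (n - k) - 1` is prime -/
def ks (K n : ℕ) : Finset ℕ := (Icc 1 K).filter (fun k => 2 * k ≤ n ∧ (k * (n - k) - 1).Prime)

/-- (1) For every real `0 < θ < 1` and every progression `a` modulo `q` there are `c, C > 0` and `N₀` such that for all
`N ≥ N₀` and all integers `K` with `C log N ≤ K ≤ N ^ θ` at least `c N` of the integers `1 ≤ n ≤ N`, `n ≡ a (mod q)`, have at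
least `c K / log N` elements in `ks K n`. (2) There is `C` such that for all `N ≥ 2`, `K ≥ 1` at most `C (K / log N) N` of
the integers `1 ≤ n ≤ N` have a nonempty set `ks K n`. -/
theorem result :
    (∀ θ : ℝ, 0 < θ → θ < 1 → ∀ q a : ℕ, 1 ≤ q → ∃ c C : ℝ, 0 < c ∧ 0 < C ∧ ∃ N₀ : ℕ,
      ∀ N : ℕ, N₀ ≤ N → ∀ K : ℕ, C * Real.log N ≤ K → (K : ℝ) ≤ (N : ℝ) ^ θ →
        c * N ≤ (((Icc 1 N).filter (fun n : ℕ => n % q = a % q ∧
          c * K / Real.log N ≤ ((ks K n).card : ℝ))).card : ℝ)) ∧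
    (∃ C : ℝ, 0 < C ∧ ∀ N K : ℕ, 2 ≤ N → 1 ≤ K →
      (((Icc 1 N).filter (fun n : ℕ => (ks K n).Nonempty)).card : ℝ) ≤ C * K / Real.log N * N) :=
  ⟨Pool.Agent.Helper93.KN.pFin, Pool.Agent.Helper93.KN.pUp⟩

end Pool.Agent.Results.MP_77e955_nt.PositiveProportion
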